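import Pool.Agent.TH293.OFE.Fields

/-!
# The parity conjecture and sets of number fields with an odd number of fixed embeddings
-/

set_option autoImplicit false

open NumberField NumberField.InfinitePlace IntermediateField
  Pool.Agent.TH965.St Pool.Agent.TH349.ORP Pool.Agent.TH293.OFE

namespace Pool.Agent.Results.MP_ac3185_nt.OddFixedEmbeddings

/-- Abelian varieties over the number fields `K` contained in the algebraic closure `Qb` of `ℚ`
(`⊥` is `ℚ`), with what occurs in the parity conjecture. -/
structure AbelianVarieties where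
  /-- abelian varieties over `K` -/
  Var : IntermediateField ℚ Qb → Type
  /-- the Mordell-Weil rank of `A/K` -/
  rank : {K : IntermediateField ℚ Qb} → Var K → ℕ
  /-- the number of places `v` of `K` with `w(A/K_v) = -1` -/
  minus : {K : IntermediateField ℚ Qb} → Var K → ℕ
  /-- the base change `A_K` of an abelian variety `A` over `ℚ` -/
  bc : (K : IntermediateField ℚ Qb) → Var ⊥ → Var K
  /-- restriction of scalars from `K` to `ℚ` -/
  res : {K : IntermediateField ℚ Qb} → Var K → Var ⊥

variable (T : AbelianVarieties)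

/-- The parity conjecture for `A/K`: the rank is congruent modulo two to the number of places with
local root number `-1`. -/
def AbelianVarieties.Parity {K : IntermediateField ℚ Qb} (A : T.Var K) : Prop :=
  T.rank A ≡ T.minus A [MOD 2]

/-- `A ⊗ K₁ ⊗ ⋯ ⊗ K_r`, where `B ⊗ K` is the restriction of scalars of `B_K` to `ℚ`; it is the
abelian variety `A ⊗ ℤ[X]` over `ℚ`, where `X` is the product of the Galois sets `G_ℚ/G_{K_i}`. -/
def AbelianVarieties.tens (A : T.Var ⊥) : List (IntermediateField ℚ Qb) → T.Var ⊥
  | [] => A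
  | K :: l => T.res (T.bc K (AbelianVarieties.tens A l))

/-- The classical facts about ranks and root numbers that are used. -/
structure AbelianVarieties.Facts : Prop where
  /-- the rank of the restriction of scalars -/
  res_rank : ∀ (K : IntermediateField ℚ Qb) (A : T.Var K), NumberField K →
    T.rank (T.res A) = T.rank A
  /-- the global root number of the restriction of scalars -/
  res_minus : ∀ (K : IntermediateField ℚ Qb) (A : T.Var K), NumberField K →
    T.minus (T.res A) ≡ T.minus A [MOD 2]
  /-- Artin formalism: if two finite sums of products of permutation characters agree, then the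
  corresponding products of the abelian varieties `A ⊗ K₁ ⊗ ⋯ ⊗ K_r` over `ℚ` are isogenous, so
  they have the same rank and the same global root number -/
  artin : ∀ (A : T.Var ⊥) (L L' : List (List (IntermediateField ℚ Qb))),
    (∀ l ∈ L, ∀ K ∈ l, NumberField K) → (∀ l ∈ L', ∀ K ∈ l, NumberField K) →
    (∀ g : GQ, (L.map fun l => (l.map fun K => perm K g).prod).sum =
      (L'.map fun l => (l.map fun K => perm K g).prod).sum) →
    (L.map fun l => T.rank (T.tens A l)).sum = (L'.map fun l => T.rank (T.tens A l)).sum ∧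
      (L.map fun l => T.minus (T.tens A l)).sum ≡
        (L'.map fun l => T.minus (T.tens A l)).sum [MOD 2]

/-- The parity conjecture (Q1): it holds for all abelian varieties over all number fields. -/
def AbelianVarieties.AllParity : Prop :=
  ∀ F : IntermediateField ℚ Qb, NumberField F → ∀ A : T.Var F, T.Parity A

variable {T}

theorem sum_modEq (hT : T.Facts) {𝒦 : Set (IntermediateField ℚ Qb)}
    (hnf : ∀ K ∈ 𝒦, NumberField K) (H : ∀ K ∈ 𝒦, ∀ A : T.Var ⊥, T.Parity (T.bc K A))
    (A : T.Var ⊥) (J : List (List (IntermediateField ℚ Qb)))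
    (hJ : ∀ l ∈ J, ∃ K ∈ 𝒦, ∃ t, l = K :: t) :
    (J.map fun l => T.rank (T.tens A l)).sum ≡ (J.map fun l => T.minus (T.tens A l)).sum
      [MOD 2] := by
  induction J with
  | nil => rfl
  | cons l J ih =>
    rw [List.map_cons, List.map_cons, List.sum_cons, List.sum_cons]
    apply Nat.ModEq.add _ (ih fun l' hl' => hJ l' (List.mem_cons_of_mem _ hl'))
    obtain ⟨K, hK, t, rfl⟩ := hJ l List.mem_cons_self
    show T.rank (T.res (T.bc K (T.tens A t))) ≡ T.minus (T.res (T.bc K (T.tens A t))) [MOD 2]
    rw [hT.res_rank K _ (hnf K hK)]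
    exact (H K hK (T.tens A t)).trans (hT.res_minus K _ (hnf K hK)).symm

theorem criterion (hT : T.Facts) (𝒦 : Set (IntermediateField ℚ Qb)) (hfin : 𝒦.Finite)
    (hnf : ∀ K ∈ 𝒦, NumberField K) (hodd : ∀ g : GQ, ∃ K ∈ 𝒦, Odd (perm K g))
    (H : ∀ K ∈ 𝒦, ∀ A : T.Var ⊥, T.Parity (T.bc K A)) : T.AllParity := by
  -- first over `ℚ`
  have key : ∀ A : T.Var ⊥, T.Parity A := by
    intro A
    obtain ⟨J, J', D, D', h1, h2, h3, h4, h5, h6, h7⟩ :=
      core perm (fun K => NumberField K) perm_bounded hfin.toFinset
        (fun K hK => hnf K (hfin.mem_toFinset.1 hK))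
        (fun g => by
          obtain ⟨K, hK, hK'⟩ := hodd g
          exact ⟨K, hfin.mem_toFinset.2 hK, hK'⟩)
    have hsm : ∀ (L : List (List (IntermediateField ℚ Qb))) (g : GQ),
        sm perm L g = (((L.map fun l => (l.map fun K => perm K g).prod).sum : ℕ) : ℤ) := by
      intro L g
      induction L with
      | nil => rfl
      | cons l L ih =>
        rw [sm_cons, Pi.add_apply, ih, List.map_cons, List.sum_cons, Nat.cast_add]
        congr 1
        show (l.map fun K => (perm K g : ℤ)).prod = _
        induction l with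
        | nil => rfl
        | cons K l ihl => rw [List.map_cons, List.map_cons, List.prod_cons, List.prod_cons,
            Nat.cast_mul, ihl]
    have h8 := hT.artin A ([] :: (J' ++ (D' ++ D'))) (J ++ (D ++ D)) ?_ ?_ ?_
    · obtain ⟨h9, h10⟩ := h8
      have h5' : ∀ l ∈ J, ∃ K ∈ 𝒦, ∃ t, l = K :: t := by
        intro l hl
        obtain ⟨K, hK, t, ht⟩ := h5 l hl
        exact ⟨K, hfin.mem_toFinset.1 hK, t, ht⟩
      have h6' : ∀ l ∈ J', ∃ K ∈ 𝒦, ∃ t, l = K :: t := by
        intro l hl
        obtain ⟨K, hK, t, ht⟩ := h6 l hl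
        exact ⟨K, hfin.mem_toFinset.1 hK, t, ht⟩
      have h11 := sum_modEq hT hnf H A J h5'
      have h12 := sum_modEq hT hnf H A J' h6'
      simp only [List.map_cons, List.map_append, List.sum_cons, List.sum_append] at h9 h10
      have h13 : T.tens A [] = A := rfl
      rw [h13] at h9 h10
      unfold AbelianVarieties.Parity
      unfold Nat.ModEq at h10 h11 h12 ⊢
      omega
    · intro l hl
      rcases List.mem_cons.1 hl with h | h
      · rw [h]
        exact fun K hK => absurd hK List.not_mem_nil
      · rcases List.mem_append.1 h with h | h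
        · exact h2 l h
        · rcases List.mem_append.1 h with h | h
          · exact h4 l h
          · exact h4 l h
    · intro l hl
      rcases List.mem_append.1 hl with h | h
      · exact h1 l h
      · rcases List.mem_append.1 h with h | h
        · exact h3 l h
        · exact h3 l h
    · intro g
      have h9 := congrFun h7 g
      have h10 : (1 : ℤ) + (sm perm J' g + 2 * sm perm D' g) = sm perm J g + 2 * sm perm D g := h9
      rw [hsm, hsm, hsm, hsm] at h10
      simp only [List.map_cons, List.map_append, List.sum_cons, List.sum_append, List.map_nil,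
        List.prod_nil]
      omega
  intro F hF A
  have h1 := key (T.res A)
  unfold AbelianVarieties.Parity at h1 ⊢
  rw [hT.res_rank F A hF] at h1
  exact h1.trans (hT.res_minus F A hF)

/-- **The parity conjecture and fixed embeddings.** Let `T` be the theory of abelian varieties over
number fields, with the classical facts `Facts`.
(1) Let `𝒦` be a finite set of number fields such that every element of `G_ℚ` fixes an odd number of
embeddings of some `K ∈ 𝒦` into `Qb`. Then the parity conjecture for all abelian varieties over all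
number fields is equivalent to the parity conjecture for `A_K`, `A` an abelian variety over `ℚ`,
`K ∈ 𝒦`.
(2) This applies to the fields generated by the roots `x i` of a separable quartic polynomial over
`ℚ` and by the roots of its cubic resolvent.
(3) For every `N` it is equivalent to the parity conjecture for `A_K`, `A` an abelian variety over
`ℚ`, `K` a number field with at most one real place and at least `N` complex places. -/
theorem result (T : AbelianVarieties) (hT : T.Facts) :
    (∀ 𝒦 : Set (IntermediateField ℚ Qb), 𝒦.Finite → (∀ K ∈ 𝒦, NumberField K) →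
      (∀ g : GQ, ∃ K ∈ 𝒦, Odd (perm K g)) →
      (T.AllParity ↔
        (∀ K ∈ 𝒦, ∀ A : T.Var ⊥, T.Parity (T.bc K A)))) ∧
    (∀ x : Fin 4 → Qb, Function.Injective x → (∀ (g : GQ) (i : Fin 4), ∃ j, g (x i) = x j) →
      (T.AllParity ↔
        (∀ A : T.Var ⊥, (∀ i, T.Parity (T.bc ℚ⟮x i⟯ A)) ∧
          T.Parity (T.bc ℚ⟮x 0 * x 1 + x 2 * x 3⟯ A) ∧
          T.Parity (T.bc ℚ⟮x 0 * x 2 + x 1 * x 3⟯ A) ∧
          T.Parity (T.bc ℚ⟮x 0 * x 3 + x 1 * x 2⟯ A)))) ∧
    (∀ N : ℕ, (T.AllParity ↔
      (∀ (K : IntermediateField ℚ Qb) (_ : NumberField K), nrRealPlaces K ≤ 1 →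
        N ≤ nrComplexPlaces K → ∀ A : T.Var ⊥, T.Parity (T.bc K A)))) := by
  refine ⟨fun 𝒦 h1 h2 h3 => ⟨fun H K hK A => H K (h2 K hK) _, fun H => criterion hT 𝒦 h1 h2 h3 H⟩,
    fun x hx hst => ⟨fun H A => ⟨fun i => H _ (nf_simple _) _, H _ (nf_simple _) _,
      H _ (nf_simple _) _, H _ (nf_simple _) _⟩, fun H => ?_⟩,
    fun N => ⟨fun H K hK _ _ A => H K hK _, fun H => ?_⟩⟩
  · refine criterion hT (Set.range (fun i => ℚ⟮x i⟯) ∪ Set.range (fun k => ℚ⟮reso x k⟯))
      ((Set.finite_range _).union (Set.finite_range _)) ?_ ?_ ?_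
    · rintro K (⟨i, rfl⟩ | ⟨k, rfl⟩)
      · exact nf_simple _
      · exact nf_simple _
    · intro g
      obtain ⟨K, h1, h2⟩ := quartic hx hst g
      refine ⟨K, ?_, h2⟩
      rcases h1 with ⟨i, rfl⟩ | ⟨k, rfl⟩
      · exact Or.inl ⟨i, rfl⟩
      · exact Or.inr ⟨k, rfl⟩
    · rintro K (⟨i, rfl⟩ | ⟨k, rfl⟩) A
      · exact (H A).1 i
      · obtain ⟨-, h1, h2, h3⟩ := H A
        fin_cases k
        · exact h1
        · exact h2
        · exact h3
  · obtain ⟨p, h1, hp⟩ := Nat.exists_infinite_primes (2 * N + 3)
    obtain ⟨n, K, n', K', h3, h4, h5⟩ := trivial_character hp (by omega)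
    refine criterion hT (Set.range K ∪ Set.range K')
      ((Set.finite_range _).union (Set.finite_range _)) ?_ ?_ ?_
    · rintro _ (⟨a, rfl⟩ | ⟨b, rfl⟩)
      · exact (h3 a).2.choose
      · exact (h4 b).2.choose
    · intro g
      by_contra hcon
      push Not at hcon
      have e1 : Even (∑ a, perm (K a) g) := by
        rw [even_iff_two_dvd]
        apply Finset.dvd_sum
        intro a _
        rw [← even_iff_two_dvd, ← Nat.not_odd_iff_even]
        exact hcon _ (Or.inl ⟨a, rfl⟩)
      have e2 : Even (∑ b, perm (K' b) g) := by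
        rw [even_iff_two_dvd]
        apply Finset.dvd_sum
        intro b _
        rw [← even_iff_two_dvd, ← Nat.not_odd_iff_even]
        exact hcon _ (Or.inr ⟨b, rfl⟩)
      have e3 := h5 g
      rw [Nat.even_iff] at e1 e2
      omega
    · rintro _ (⟨a, rfl⟩ | ⟨b, rfl⟩) A
      · obtain ⟨-, hnf, h6, h7⟩ := h3 a
        exact H _ hnf h6 (by omega) A
      · obtain ⟨-, hnf, h6, h7⟩ := h4 b
        exact H _ hnf h6 (by omega) A

end Pool.Agent.Results.MP_ac3185_nt.OddFixedEmbeddings
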