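import Mathlib

/-!
The parity conjecture for abelian varieties: reduction to simple abelian varieties whose
endomorphism algebra is a totally real number field of odd degree.
-/

set_option autoImplicit false

namespace Pool.Agent.Results.MP_ac3185_nt.OddRealEndomorphisms

open Module

/-- Root numbers over a number field `K`.  `Sys`: isomorphism classes of compatible systems
(complex coefficients) occurring as summands of the systems `V(A)` of Tate modules of abelian
varieties `A/K`, under direct sum.  `W V`: the product over all places of the local root numbers of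
`V` (for the components of a fixed additive character of the adele classes of `K`); for `V(A)` it is
`∏ w(A/K_v)`.  `dual V` is `V^∨(1)`, `gal s V` the conjugate of `V` by `s ∈ Aut(ℂ)`. -/
structure RootNumbers where
  Sys : Type
  [addCommMonoid : AddCommMonoid Sys]
  W : Sys → ℂ
  dual : Sys → Sys
  gal : (ℂ ≃+* ℂ) → Sys → Sys
  Symplectic : Sys → Prop

attribute [instance] RootNumbers.addCommMonoid

/-- Deligne: root numbers are multiplicative in direct sums, and `W(V) W(V^∨(1)) = 1` (locally the
product is the value of `det V` at `-1`; use the product formula for `det V`). -/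
def RootNumbers.Deligne (R : RootNumbers) : Prop :=
  R.W 0 = 1 ∧ (∀ x y, R.W (x + y) = R.W x * R.W y) ∧ ∀ x, R.W x * R.W (R.dual x) = 1

/-- Rohrlich: root numbers of symplectic systems are invariant under `Aut(ℂ)`. -/
def RootNumbers.Rohrlich (R : RootNumbers) : Prop :=
  ∀ s x, R.Symplectic x → R.W (R.gal s x) = R.W x

/-- Abelian varieties over `K` up to isogeny.  `Simple`: the simple ones `B`; `D B = End⁰_K(B)`,
a division algebra over `ℚ` with centre the number field `F B`, of dimension `(m B)²` over `F B`;
`MW B = B(K) ⊗ ℚ`; `sys B`: the system of `V(B)`; `part B t`: for an embedding `t : F B → ℂ`,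
`m B` copies of `part B t` form the summand of `sys B` on which `F B` acts through `t`. -/
structure AbelianVarieties (R : RootNumbers) where
  Simple : Type
  D : Simple → Type
  [divisionRing : ∀ B, DivisionRing (D B)]
  F : Simple → Type
  [field : ∀ B, Field (F B)]
  [numberField : ∀ B, NumberField (F B)]
  [algebra : ∀ B, Algebra (F B) (D B)]
  [central : ∀ B, Algebra.IsCentral (F B) (D B)]
  [finite : ∀ B, FiniteDimensional (F B) (D B)]
  m : Simple → ℕ
  MW : Simple → Type
  [addCommGroup : ∀ B, AddCommGroup (MW B)]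
  [module : ∀ B, Module (D B) (MW B)]
  [fg : ∀ B, Module.Finite (D B) (MW B)]
  sys : Simple → R.Sys
  part : ∀ B, (F B →+* ℂ) → R.Sys

attribute [instance] AbelianVarieties.divisionRing AbelianVarieties.field
  AbelianVarieties.numberField AbelianVarieties.algebra AbelianVarieties.central
  AbelianVarieties.finite AbelianVarieties.addCommGroup AbelianVarieties.module
  AbelianVarieties.fg

variable {R : RootNumbers}

/-- `dim_ℚ End⁰_K(B)`. -/
noncomputable def AbelianVarieties.endDim (X : AbelianVarieties R) (B : X.Simple) : ℕ :=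
  finrank ℚ (X.F B) * finrank (X.F B) (X.D B)

/-- The rank of `B(K)`: `dim_ℚ (B(K) ⊗ ℚ)`. -/
noncomputable def AbelianVarieties.rank (X : AbelianVarieties R) (B : X.Simple) : ℕ :=
  X.endDim B * finrank (X.D B) (X.MW B)

/-- Albert's classification: `[D : F] = m²`, and either `F` is a CM field, or `F` is totally real and
`m ≤ 2`. -/
def AbelianVarieties.Albert (X : AbelianVarieties R) : Prop :=
  ∀ B, finrank (X.F B) (X.D B) = X.m B ^ 2 ∧
    ((∀ t : X.F B →+* ℂ, (starRingEnd ℂ).comp t ≠ t) ∨
      ((∀ t : X.F B →+* ℂ, (starRingEnd ℂ).comp t = t) ∧ (X.m B = 1 ∨ X.m B = 2)))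

/-- The structure of the Tate module of `B` over `F ⊗ ℂ`: decomposition, Weil pairing (the Rosati
involution induces complex conjugation on `F`), conjugation; if `D = F` is totally real, the Weil
pairing makes the parts symplectic. -/
def AbelianVarieties.TateModules (X : AbelianVarieties R) : Prop :=
  ∀ B, X.sys B = ∑ t, X.m B • X.part B t ∧
    (∀ t, R.dual (X.part B t) = X.part B ((starRingEnd ℂ).comp t)) ∧
    (∀ t t', ∃ s, X.part B t' = R.gal s (X.part B t)) ∧
    (X.m B = 1 → ∀ t, (starRingEnd ℂ).comp t = t → R.Symplectic (X.part B t))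

/-- The parity conjecture for the abelian variety `∏ B ^ (n B)`. -/
def AbelianVarieties.Parity (X : AbelianVarieties R) (n : X.Simple →₀ ℕ) : Prop :=
  (-1 : ℂ) ^ (n.sum fun B k => k * X.rank B) = R.W (n.sum fun B k => k • X.sys B)

section proofs

variable {X : AbelianVarieties R}

theorem W_nsmul (hR : R.Deligne) (k : ℕ) (x : R.Sys) : R.W (k • x) = R.W x ^ k := by
  induction k with
  | zero => simp [hR.1]
  | succ k ih => rw [succ_nsmul, hR.2.1, ih, pow_succ]

theorem W_sum (hR : R.Deligne) {ι : Type*} (s : Finset ι) (f : ι → R.Sys) :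
    R.W (∑ i ∈ s, f i) = ∏ i ∈ s, R.W (f i) := by
  classical
  induction s using Finset.induction_on with
  | empty => simp [hR.1]
  | insert a s ha ih => rw [Finset.sum_insert ha, Finset.prod_insert ha, hR.2.1, ih]

theorem endDim_eq (hA : X.Albert) (B : X.Simple) :
    X.endDim B = finrank ℚ (X.F B) * X.m B ^ 2 := by
  unfold AbelianVarieties.endDim
  rw [(hA B).1]

theorem conj_conj {F : Type*} [Field F] (t : F →+* ℂ) :
    (starRingEnd ℂ).comp ((starRingEnd ℂ).comp t) = t := by
  ext x; simp

theorem card_even {F : Type} [Field F] [NumberField F]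
    (h : ∀ t : F →+* ℂ, (starRingEnd ℂ).comp t ≠ t) : Even (finrank ℚ F) := by
  rw [← NumberField.Embeddings.card F ℂ, ← ZMod.natCast_eq_zero_iff_even,
    ← Finset.card_univ, Finset.cast_card]
  exact Finset.sum_involution (fun t _ => (starRingEnd ℂ).comp t)
    (fun t _ => by decide) (fun t _ _ => h t) (fun t _ => Finset.mem_univ _)
    (fun t _ => conj_conj t)

/-- The root number of a simple abelian variety with even-dimensional endomorphism algebra. -/
theorem W_even (hR : R.Deligne) (hG : R.Rohrlich) (hA : X.Albert) (hT : X.TateModules)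
    (B : X.Simple) (h : Even (X.endDim B)) : R.W (X.sys B) = 1 := by
  obtain ⟨h1, h2, h3, h4⟩ := hT B
  rw [h1, W_sum hR]
  simp_rw [W_nsmul hR]
  rcases (hA B).2 with hc | ⟨hr, hm⟩
  · refine Finset.prod_involution (fun t _ => (starRingEnd ℂ).comp t)
      (fun t _ => ?_) (fun t _ _ => hc t) (fun t _ => Finset.mem_univ _)
      (fun t _ => conj_conj t)
    rw [← mul_pow, ← h2, hR.2.2, one_pow]
  · have hsq : ∀ t, R.W (X.part B t) ^ 2 = 1 := by
      intro t
      have := hR.2.2 (X.part B t)
      rw [h2, hr t] at this
      rw [sq, this]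
    rcases hm with hm | hm
    · have hne : Nonempty (X.F B →+* ℂ) := inferInstance
      obtain ⟨t0⟩ := hne
      have hall : ∀ t, R.W (X.part B t) = R.W (X.part B t0) := by
        intro t
        obtain ⟨s, hs⟩ := h3 t0 t
        rw [hs, hG s _ (h4 hm t0 (hr t0))]
      rw [hm]
      simp only [pow_one, hall, Finset.prod_const, Finset.card_univ,
        NumberField.Embeddings.card]
      rw [endDim_eq hA, hm, one_pow, mul_one] at h
      obtain ⟨k, hk⟩ := h
      rw [hk, ← two_mul, pow_mul, hsq, one_pow]
    · rw [hm]
      exact Finset.prod_eq_one fun t _ => hsq t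

theorem parity_split (hR : R.Deligne) (n : X.Simple →₀ ℕ) :
    ((-1 : ℂ) ^ (n.sum fun B k => k * X.rank B) = ∏ B ∈ n.support, ((-1 : ℂ) ^ X.rank B) ^ n B) ∧
    (R.W (n.sum fun B k => k • X.sys B) = ∏ B ∈ n.support, R.W (X.sys B) ^ n B) := by
  constructor
  · rw [Finsupp.sum, ← Finset.prod_pow_eq_pow_sum]
    refine Finset.prod_congr rfl fun B _ => ?_
    rw [← pow_mul, mul_comm]
  · rw [Finsupp.sum, W_sum hR]
    refine Finset.prod_congr rfl fun B _ => ?_
    rw [W_nsmul hR]

theorem W_sq (hR : R.Deligne) (hA : X.Albert) (hT : X.TateModules) (B : X.Simple) :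
    R.W (X.sys B) ^ 2 = 1 := by
  obtain ⟨h1, h2, -, -⟩ := hT B
  rw [h1, W_sum hR]
  simp_rw [W_nsmul hR]
  rw [← Finset.prod_pow]
  rcases (hA B).2 with hc | ⟨hr, -⟩
  · refine Finset.prod_involution (fun t _ => (starRingEnd ℂ).comp t)
      (fun t _ => ?_) (fun t _ _ => hc t) (fun t _ => Finset.mem_univ _)
      (fun t _ => conj_conj t)
    rw [← mul_pow, ← mul_pow, ← h2, hR.2.2, one_pow, one_pow]
  · refine Finset.prod_eq_one fun t _ => ?_
    have := hR.2.2 (X.part B t)
    rw [h2, hr t] at this
    rw [← pow_mul, mul_comm, pow_mul, sq, this, one_pow]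

end proofs

/-- **The parity conjecture away from odd real multiplication.**  With Deligne's formalism of root
numbers, Rohrlich's Galois invariance, Albert's classification and the structure of Tate modules:

(1) The parity conjecture holds for every abelian variety over `K` isogenous to `∏ B ^ (n B)`,
`B` simple, such that every number `n(B) dim_ℚ End⁰_K(B)` is even.

(2) The parity conjecture holds for all abelian varieties over `K` if and only if it holds for the
simple ones `B` with `dim_ℚ End⁰_K(B)` odd.

(3) For these `B`, `End⁰_K(B)` is a totally real number field of odd degree. -/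
theorem result (R : RootNumbers) (hR : R.Deligne) (hG : R.Rohrlich) (X : AbelianVarieties R)
    (hA : X.Albert) (hT : X.TateModules) :
    (∀ n : X.Simple →₀ ℕ, (∀ B, Even (n B * X.endDim B)) → X.Parity n) ∧
    ((∀ n : X.Simple →₀ ℕ, X.Parity n) ↔
      ∀ B, Odd (X.endDim B) → X.Parity (Finsupp.single B 1)) ∧
    (∀ B, Odd (X.endDim B) → finrank (X.F B) (X.D B) = 1 ∧ Odd (finrank ℚ (X.F B)) ∧
      ∀ t : X.F B →+* ℂ, (starRingEnd ℂ).comp t = t) := by
  have hone : ∀ B, Even (X.endDim B) → (-1 : ℂ) ^ X.rank B = R.W (X.sys B) := by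
    intro B h
    rw [W_even hR hG hA hT B h]
    exact Even.neg_one_pow (h.mul_right _)
  have hevenpow : ∀ B k, Even k → ((-1 : ℂ) ^ X.rank B) ^ k = R.W (X.sys B) ^ k := by
    rintro B k ⟨j, rfl⟩
    have h1 : ((-1 : ℂ) ^ X.rank B) ^ 2 = 1 := by
      rw [← pow_mul, mul_comm, pow_mul, neg_one_sq, one_pow]
    rw [← two_mul, pow_mul, pow_mul, W_sq hR hA hT B, h1]
  refine ⟨fun n hn => ?_, ⟨fun h B _ => h _, fun h n => ?_⟩, fun B hB => ?_⟩
  · unfold AbelianVarieties.Parity
    rw [(parity_split hR n).1, (parity_split hR n).2]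
    refine Finset.prod_congr rfl fun B _ => ?_
    rcases Nat.even_mul.1 (hn B) with h | h
    · exact hevenpow B _ h
    · rw [hone B h]
  · unfold AbelianVarieties.Parity
    rw [(parity_split hR n).1, (parity_split hR n).2]
    refine Finset.prod_congr rfl fun B _ => ?_
    rcases Nat.even_or_odd (X.endDim B) with hB | hB
    · rw [hone B hB]
    · have := h B hB
      unfold AbelianVarieties.Parity at this
      rw [Finsupp.sum_single_index (by simp), Finsupp.sum_single_index (by simp), one_mul,
        one_nsmul] at this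
      rw [this]
  · rw [endDim_eq hA] at hB
    obtain ⟨h1, h2⟩ := Nat.odd_mul.1 hB
    rcases (hA B).2 with hc | ⟨hr, hm⟩
    · exact absurd h1 (Nat.not_odd_iff_even.2 (card_even hc))
    · rcases hm with hm | hm
      · refine ⟨by rw [(hA B).1, hm, one_pow], h1, hr⟩
      · rw [hm] at h2
        exact absurd h2 (by decide)

end Pool.Agent.Results.MP_ac3185_nt.OddRealEndomorphisms
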